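import Pool.Agent.helper3.T6R.Spec

set_option autoImplicit false

/-!
# The absolute values of a real quadratic field (row t6r:RVV)
-/

namespace Pool.Agent.T6R

open Finset NumberField Pool.Agent.helper3.FT Pool.Agent.helper47.RA Pool.Agent.T5 Pool.Agent.T6
open scoped nonZeroDivisors

theorem RVV_pow {x M C : ℝ} (hM : 0 ≤ M) (h : ∀ n : ℕ, x ^ n ≤ C * M ^ n) : x ≤ M := by
  by_contra hlt
  push Not at hlt
  rcases hM.eq_or_lt with h0 | h0
  · have h1 := h 1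
    rw [← h0] at h1 hlt
    simp only [pow_one, mul_zero] at h1
    linarith
  · have h1 : 1 < x / M := by rwa [lt_div_iff₀ h0, one_mul]
    obtain ⟨n, hn⟩ := pow_unbounded_of_one_lt C h1
    have h2 := h n
    rw [div_pow, lt_div_iff₀ (pow_pos h0 n)] at hn
    linarith

theorem RVV (hREM : REM_stmt) : RVV_stmt := by
  intro K _ _ Q hD a
  obtain ⟨⟨f, g, hf, hg⟩, -, hsub, hnorm, -, -, -⟩ := hREM K Q hD
  have hs : (1 : ℝ) ≤ √(Q.D : ℝ) := by
    rw [Real.one_le_sqrt]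
    exact_mod_cast hD
  -- the bound with a constant
  have key : ∀ (b : 𝓞 K) (M : ℝ), |emA Q b| ≤ M → |emB Q b| ≤ M →
      Q.v₁ b ≤ (3 + 2 * Q.v₁ Q.ω) * M ∧ Q.v₂ b ≤ (3 + 2 * Q.v₂ Q.ω) * M := by
    intro b M hA hB
    have hM : 0 ≤ M := (abs_nonneg _).trans hA
    have hy1 : |(Q.Y b : ℝ)| * √(Q.D : ℝ) ≤ 2 * M := by
      have h1 := hsub b
      have h2 : |(Q.Y b : ℝ) * √(Q.D : ℝ)| ≤ |emA Q b| + |emB Q b| := by
        rw [← h1]
        exact abs_sub _ _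
      rw [abs_mul, abs_of_nonneg (Real.sqrt_nonneg _)] at h2
      linarith
    have hy : |(Q.Y b : ℝ)| ≤ 2 * M := by
      have h1 : |(Q.Y b : ℝ)| * 1 ≤ |(Q.Y b : ℝ)| * √(Q.D : ℝ) := mul_le_mul_of_nonneg_left hs (abs_nonneg _)
      linarith
    have hr : |((Q.hspan b).choose : ℝ)| ≤ 3 * M := by
      have h1 : ((Q.hspan b).choose : ℝ) = emA Q b - Q.Y b * ((Q.t + √(Q.D : ℝ)) / 2) := by
        unfold emA
        ring
      have ht : |((Q.t : ℝ) + √(Q.D : ℝ)) / 2| ≤ √(Q.D : ℝ) := by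
        rcases Q.ht with h | h
        · rw [h, Int.cast_zero, zero_add, abs_of_nonneg (by positivity)]
          linarith
        · rw [h, Int.cast_one, abs_of_nonneg (by positivity)]
          linarith
      have h2 : |(Q.Y b : ℝ) * (((Q.t : ℝ) + √(Q.D : ℝ)) / 2)| ≤ 2 * M := by
        rw [abs_mul]
        exact (mul_le_mul_of_nonneg_left ht (abs_nonneg _)).trans hy1
      rw [h1]
      have h3 := abs_sub (emA Q b) ((Q.Y b : ℝ) * (((Q.t : ℝ) + √(Q.D : ℝ)) / 2))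
      linarith
    have hb : b = ((Q.hspan b).choose : ℤ) + (Q.Y b : ℤ) * Q.ω := (Q.hspan b).choose_spec.choose_spec
    have hv1 := Q.v₁_nonneg Q.ω
    have hv2 := Q.v₂_nonneg Q.ω
    constructor
    · have h1 : Q.v₁ b ≤ |((Q.hspan b).choose : ℝ)| + |(Q.Y b : ℝ)| * Q.v₁ Q.ω := by
        have h2 := Q.v₁_add (((Q.hspan b).choose : ℤ) : 𝓞 K) ((Q.Y b : ℤ) * Q.ω)
        rw [← hb, Q.v₁_mul, Q.v₁_int, Q.v₁_int] at h2
        exact h2
      have h3 : |(Q.Y b : ℝ)| * Q.v₁ Q.ω ≤ 2 * M * Q.v₁ Q.ω := mul_le_mul_of_nonneg_right hy hv1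
      linarith
    · have h1 : Q.v₂ b ≤ |((Q.hspan b).choose : ℝ)| + |(Q.Y b : ℝ)| * Q.v₂ Q.ω := by
        have h2 := Q.v₂_add (((Q.hspan b).choose : ℤ) : 𝓞 K) ((Q.Y b : ℤ) * Q.ω)
        rw [← hb, Q.v₂_mul, Q.v₂_int, Q.v₂_int] at h2
        exact h2
      have h3 : |(Q.Y b : ℝ)| * Q.v₂ Q.ω ≤ 2 * M * Q.v₂ Q.ω := mul_le_mul_of_nonneg_right hy hv2
      linarith
  -- powers
  have hv1p : ∀ n : ℕ, Q.v₁ (a ^ n) = Q.v₁ a ^ n := by
    intro n
    induction n with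
    | zero =>
      rw [pow_zero, pow_zero]
      have := Q.v₁_int 1
      simpa using this
    | succ n ih => rw [pow_succ, Q.v₁_mul, ih, pow_succ]
  have hv2p : ∀ n : ℕ, Q.v₂ (a ^ n) = Q.v₂ a ^ n := by
    intro n
    induction n with
    | zero =>
      rw [pow_zero, pow_zero]
      have := Q.v₂_int 1
      simpa using this
    | succ n ih => rw [pow_succ, Q.v₂_mul, ih, pow_succ]
  have main : ∀ M : ℝ, |emA Q a| ≤ M → |emB Q a| ≤ M → Q.v₁ a ≤ M ∧ Q.v₂ a ≤ M := by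
    intro M hA hB
    have hM : 0 ≤ M := (abs_nonneg _).trans hA
    have hp : ∀ n : ℕ, |emA Q (a ^ n)| ≤ M ^ n ∧ |emB Q (a ^ n)| ≤ M ^ n := by
      intro n
      rw [← hf, ← hg, map_pow, map_pow, hf, hg, abs_pow, abs_pow]
      exact ⟨pow_le_pow_left₀ (abs_nonneg _) hA n, pow_le_pow_left₀ (abs_nonneg _) hB n⟩
    constructor
    · apply RVV_pow hM (C := 3 + 2 * Q.v₁ Q.ω)
      intro n
      rw [← hv1p]
      exact (key (a ^ n) (M ^ n) (hp n).1 (hp n).2).1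
    · apply RVV_pow hM (C := 3 + 2 * Q.v₂ Q.ω)
      intro n
      rw [← hv2p]
      exact (key (a ^ n) (M ^ n) (hp n).1 (hp n).2).2
  have hN : Q.v₁ a * Q.v₂ a = |emA Q a| * |emB Q a| := by
    rw [← Q.hnorm a, hnorm a, abs_mul]
  have fin : ∀ x y A B : ℝ, 0 ≤ x → 0 ≤ y → 0 ≤ A → A ≤ B → x ≤ B → y ≤ B → x * y = A * B → x + y ≤ A + B := by
    intro x y A B hx hy hA hAB hxB hyB hxy
    rcases (hA.trans hAB).eq_or_lt with h0 | h0
    · linarith
    · have h1 : 0 ≤ (B - x) * (B - y) := mul_nonneg (by linarith) (by linarith)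
      have h2 : (x + y) * B ≤ (A + B) * B := by nlinarith
      exact le_of_mul_le_mul_right h2 h0
  rcases le_total |emA Q a| |emB Q a| with h | h
  · obtain ⟨m1, m2⟩ := main _ h le_rfl
    exact fin _ _ _ _ (Q.v₁_nonneg a) (Q.v₂_nonneg a) (abs_nonneg _) h m1 m2 hN
  · obtain ⟨m1, m2⟩ := main _ le_rfl h
    have := fin (Q.v₁ a) (Q.v₂ a) |emB Q a| |emA Q a| (Q.v₁_nonneg a) (Q.v₂_nonneg a) (abs_nonneg _) h m1 m2
      (by rw [hN, mul_comm])
    linarith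

end Pool.Agent.T6R
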